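import Pool.Agent.LE.StmtsQF

set_option autoImplicit false

/-!
# Squad LQF, row JTX: the jet of `G + τ G φ G - G₀`
-/

open MeasureTheory ProbabilityTheory Function Filter

open scoped BigOperators Topology Matrix

noncomputable section

namespace Pool.Agent.LE.QF.H85

open Pool.Agent.LE.QF

section

variable {X : Type} [Fintype X] [DecidableEq X]

lemma gd_apply (G : Matrix X X ℂ) (ν : X → ℂ) (a b : X) :
    GD G ν a b = ∑ c, G a c * ν c * G c b := by
  unfold GD
  rw [Matrix.mul_apply]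
  apply Finset.sum_congr rfl
  intro c _
  rw [Matrix.mul_diagonal]

lemma sum_gG (G : Matrix X X ℂ) (hs : ∀ a b, G a b = G b a) (φ : X → ℂ) :
    ∑ c, gG G c * Matrix.diagonal φ * gG G c = GD G (BB G *ᵥ φ) := by
  ext a b
  rw [gd_apply, Matrix.sum_apply]
  apply Finset.sum_congr rfl
  intro c _
  rw [Matrix.mul_apply]
  have h1 : (BB G *ᵥ φ) c = ∑ y, G c y ^ 2 * φ y := rfl
  rw [h1, Finset.mul_sum, Finset.sum_mul]
  apply Finset.sum_congr rfl
  intro y _
  rw [Matrix.mul_diagonal]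
  unfold gG
  rw [hs y c]
  ring

lemma gd_add (G : Matrix X X ℂ) (ν ν' : X → ℂ) : GD G (ν + ν') = GD G ν + GD G ν' := by
  ext a b
  rw [Matrix.add_apply, gd_apply, gd_apply, gd_apply, ← Finset.sum_add_distrib]
  apply Finset.sum_congr rfl
  intro c _
  rw [Pi.add_apply]
  ring

lemma gd_smul (G : Matrix X X ℂ) (t : ℂ) (ν : X → ℂ) : GD G (t • ν) = t • GD G ν := by
  ext a b
  rw [Matrix.smul_apply, gd_apply, gd_apply, smul_eq_mul, Finset.mul_sum]
  apply Finset.sum_congr rfl
  intro c _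
  rw [Pi.smul_apply, smul_eq_mul]
  ring

/-- the algebraic identity for the generator -/
lemma drift (G Q : Matrix X X ℂ) (hs : ∀ a b, G a b = G b a) (τ : ℝ) (μ φ ψ : X → ℂ)
    (hmu : ∀ a, μ a = φ a - τ * (BB G *ᵥ φ) a) :
    GD G μ + ((τ : ℂ) • (G * Matrix.diagonal φ * GD G μ +
      (G * Matrix.diagonal ψ + GD G μ * Matrix.diagonal φ +
        ∑ c, gG G c * Matrix.diagonal (fun y => Q y c)) * G +
      ∑ c, (G * Matrix.diagonal (fun y => Q y c) + gG G c * Matrix.diagonal φ) * gG G c) -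
      GD G φ) = lX G Q τ φ μ ψ := by
  have h0 : μ + (τ : ℂ) • (BB G *ᵥ φ) = φ := by
    funext a
    rw [Pi.add_apply, Pi.smul_apply, smul_eq_mul, hmu a]
    ring
  have h1 : GD G φ = GD G μ + (τ : ℂ) • ∑ c, gG G c * Matrix.diagonal φ * gG G c := by
    rw [sum_gG G hs, ← gd_smul, ← gd_add, h0]
  have h2 : ∑ c, (G * Matrix.diagonal (fun y => Q y c) + gG G c * Matrix.diagonal φ) * gG G c =
      ∑ c, G * Matrix.diagonal (fun y => Q y c) * gG G c +
        ∑ c, gG G c * Matrix.diagonal φ * gG G c := by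
    rw [← Finset.sum_add_distrib]
    apply Finset.sum_congr rfl
    intro c _
    rw [add_mul]
  have h3 : ∑ c, (gG G c * Matrix.diagonal (fun y => Q y c) * G +
      G * Matrix.diagonal (fun y => Q y c) * gG G c) =
      (∑ c, gG G c * Matrix.diagonal (fun y => Q y c)) * G +
        ∑ c, G * Matrix.diagonal (fun y => Q y c) * gG G c := by
    rw [Finset.sum_add_distrib, Finset.sum_mul]
  have h4 : G * Matrix.diagonal φ * GD G μ = GD G φ * Matrix.diagonal μ * G := by
    unfold GD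
    simp only [Matrix.mul_assoc]
  have h5 : GD G μ * Matrix.diagonal φ * G = G * Matrix.diagonal μ * GD G φ := by
    unfold GD
    simp only [Matrix.mul_assoc]
  have h6 : G * Matrix.diagonal ψ * G = GD G ψ := rfl
  unfold lX
  rw [h2, h3, add_mul, add_mul, h4, h5, h6]
  have h7 : (τ : ℂ) • (GD G φ * Matrix.diagonal μ * G +
      (GD G ψ + G * Matrix.diagonal μ * GD G φ +
        (∑ c, gG G c * Matrix.diagonal (fun y => Q y c)) * G) +
      (∑ c, G * Matrix.diagonal (fun y => Q y c) * gG G c +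
        ∑ c, gG G c * Matrix.diagonal φ * gG G c)) =
      (τ : ℂ) • (GD G ψ + G * Matrix.diagonal μ * GD G φ + GD G φ * Matrix.diagonal μ * G +
        ((∑ c, gG G c * Matrix.diagonal (fun y => Q y c)) * G +
        ∑ c, G * Matrix.diagonal (fun y => Q y c) * gG G c)) +
      (τ : ℂ) • ∑ c, gG G c * Matrix.diagonal φ * gG G c := by
    rw [← smul_add]
    congr 1
    abel
  rw [h7, h1]
  abel

end

/-- the jet of `τ` -/
lemma ht_jet (jal : JalStmt) {X : Type} [Fintype X] [DecidableEq X] (q : ℝ × (X → ℝ))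
    (ta : ℝ → ℝ) (τ : ℝ) (h : ContDiffAt ℝ 2 ta q.1 ∧ ta q.1 = τ ∧ deriv ta q.1 = -1) :
    HJ (fun r : ℝ × (X → ℝ) => ((ta r.1 : ℝ) : ℂ)) q (τ : ℂ) (fun _ => 0) (-1) := by
  obtain ⟨h1, h2, h3⟩ := h
  obtain ⟨_, _, _, _, _, _, jt, _⟩ := jal X ℂ q
  have hc : ContDiffAt ℝ 2 (fun t : ℝ => ((ta t : ℝ) : ℂ)) q.1 :=
    Complex.ofRealCLM.contDiff.contDiffAt.comp _ h1
  have hd : deriv (fun t : ℝ => ((ta t : ℝ) : ℂ)) q.1 = -1 := by
    have h4 : HasDerivAt ta (-1) q.1 := by
      rw [← h3]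
      exact (h1.differentiableAt (by norm_num)).hasDerivAt
    have h5 := h4.ofReal_comp.deriv
    rw [h5]
    push_cast
    rfl
  have := jt (fun t : ℝ => ((ta t : ℝ) : ℂ)) hc
  rw [hd] at this
  simp only [h2] at this
  exact this

theorem jtx (jal : JalStmt) (jma : JmaStmt) : JtxStmt := by
  intro X _ _ q Gm ta G G₀ Q m τ ph μ φ ψ hJ hμ hph hmu
  have hG := hJ.hG
  rw [← hμ] at hG
  obtain ⟨jc, _, jadd, _, _, _, _, _⟩ := jal X ℂ q
  have mprod := (jma X ℂ q).1
  have hd : HM (fun r => Matrix.diagonal (ph r)) q (Matrix.diagonal φ)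
      (fun c => Matrix.diagonal (fun y => Q y c)) (Matrix.diagonal ψ) := by
    intro a b
    by_cases hab : a = b
    · subst hab
      simp only [Matrix.diagonal_apply_eq]
      exact hph a
    · simp only [Matrix.diagonal_apply_ne _ hab]
      exact jc (0 : ℂ)
  have h1 := mprod X X X Gm (fun r => Matrix.diagonal (ph r)) G (GD G μ) (Matrix.diagonal φ)
    (Matrix.diagonal ψ) (gG G) (fun c => Matrix.diagonal (fun y => Q y c)) hG hd
  have h2 := mprod X X X _ Gm _ _ _ _ _ _ h1 hG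
  have htau := ht_jet jal q ta τ hJ.ht
  intro a b
  have h3 := (jadd _ _ _ _ _ _ _ _ htau (h2 a b)).2.2
  have h4 := (jadd _ _ _ _ _ _ _ _ (hG a b) h3).1
  have h5 := (jadd _ _ _ _ _ _ _ _ h4 (jc (G₀ a b))).2.1
  have e1 : (fun r => (Gm r + (ta r.1 : ℂ) • GD (Gm r) (ph r) - G₀) a b) =
      fun r => Gm r a b + (ta r.1 : ℂ) * (Gm r * Matrix.diagonal (ph r) * Gm r) a b - G₀ a b := by
    funext r
    rfl
  have e2 : (G + (τ : ℂ) • GD G φ - G₀) a b =
      G a b + (τ : ℂ) * (G * Matrix.diagonal φ * G) a b - G₀ a b := rfl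
  have e3 : (fun c => dX G Q τ φ c a b) = fun c =>
      gG G c a b + ((τ : ℂ) * (G * Matrix.diagonal φ * gG G c +
        (G * Matrix.diagonal (fun y => Q y c) + gG G c * Matrix.diagonal φ) * G) a b +
          0 * (G * Matrix.diagonal φ * G) a b) - 0 := by
    funext c
    have : dX G Q τ φ c a b = gG G c a b + (τ : ℂ) * (gG G c * Matrix.diagonal φ * G +
        G * Matrix.diagonal φ * gG G c + G * Matrix.diagonal (fun y => Q y c) * G) a b := rfl
    rw [this, add_mul, zero_mul, add_zero, sub_zero, Matrix.add_apply, Matrix.add_apply,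
      Matrix.add_apply, Matrix.add_apply]
    ring
  have e4 : lX G Q τ φ μ ψ a b = GD G μ a b + ((τ : ℂ) * (G * Matrix.diagonal φ * GD G μ +
      (G * Matrix.diagonal ψ + GD G μ * Matrix.diagonal φ +
        ∑ c, gG G c * Matrix.diagonal (fun y => Q y c)) * G +
      ∑ c, (G * Matrix.diagonal (fun y => Q y c) + gG G c * Matrix.diagonal φ) * gG G c) a b +
      -1 * (G * Matrix.diagonal φ * G) a b + ∑ c : X, 0 * (G * Matrix.diagonal φ * gG G c +
        (G * Matrix.diagonal (fun y => Q y c) + gG G c * Matrix.diagonal φ) * G) a b) - 0 := by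
    rw [← drift G Q hJ.hs τ μ φ ψ hmu, Matrix.add_apply, Matrix.sub_apply, Matrix.smul_apply,
      smul_eq_mul]
    have h7 : ∑ c : X, 0 * (G * Matrix.diagonal φ * gG G c +
        (G * Matrix.diagonal (fun y => Q y c) + gG G c * Matrix.diagonal φ) * G) a b = 0 := by
      simp only [zero_mul, Finset.sum_const_zero]
    rw [h7]
    have h8 : GD G φ a b = (G * Matrix.diagonal φ * G) a b := rfl
    rw [h8]
    ring
  rw [e1, e2, e3, e4]
  exact h5

end Pool.Agent.LE.QF.H85
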